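import Pool.Agent.Helper26.AF.Goals2

/-!
Packet AF-KBD: few darts on short cycles.
-/

namespace Pool.Agent.Helper22.AF

open Finset Pool.Agent.Helper26.AF

/-- Ordered pairs of different darts of the same vertex. -/
abbrev PP (r : ℕ) : Type := {p : KX r × KX r // p.1.1 = p.2.1 ∧ p.1 ≠ p.2}

theorem card_PP (r : ℕ) : Nat.card (PP r) ≤ 12 * r := by
  have h : Nat.card (PP r) ≤ Nat.card (Fin (2 * r) × {p : Fin 3 × Fin 3 // p.1 ≠ p.2}) := by
    refine Nat.card_le_card_of_injective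
      (fun p => (p.1.1.1, ⟨(p.1.1.2, p.1.2.2), ?_⟩)) ?_
    · intro h
      exact p.2.2 (Prod.ext p.2.1 h)
    · rintro ⟨⟨⟨a, b⟩, ⟨c, d⟩⟩, h1, h2⟩ ⟨⟨⟨a', b'⟩, ⟨c', d'⟩⟩, h1', h2'⟩ h
      simp only [Prod.mk.injEq, Subtype.mk.injEq] at h h1 h1'
      obtain ⟨h3, h4, h5⟩ := h
      subst h3 h4 h5 h1 h1'
      rfl
  refine h.trans (le_of_eq ?_)
  rw [Nat.card_eq_fintype_card, Fintype.card_prod, Fintype.card_fin]
  have : Fintype.card {p : Fin 3 × Fin 3 // p.1 ≠ p.2} = 6 := by decide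
  rw [this]
  ring

/-- The numerical inequality. -/
theorem num (r k : ℕ) (hk : k ≤ r) :
    (4 * r) ^ k * Nat.doubleFactorial (2 * (3 * r - k) - 1) ≤ Nat.doubleFactorial (6 * r - 1) := by
  induction k with
  | zero => simp [show 2 * (3 * r) = 6 * r by ring]
  | succ k ih =>
    refine le_trans ?_ (ih (by omega))
    have h1 : 2 * (3 * r - k) - 1 = (2 * (3 * r - (k + 1)) - 1) + 2 := by omega
    rw [h1, Nat.doubleFactorial, pow_succ]
    have h2 : 4 * r ≤ 2 * (3 * r - (k + 1)) - 1 + 2 := by omega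
    calc (4 * r) ^ k * (4 * r) * Nat.doubleFactorial (2 * (3 * r - (k + 1)) - 1)
        = (4 * r) ^ k * ((4 * r) * Nat.doubleFactorial (2 * (3 * r - (k + 1)) - 1)) := by ring
      _ ≤ _ := Nat.mul_le_mul_left _ (Nat.mul_le_mul_right _ h2)

/-- The darts of a cyclic sequence of pairs. -/
def dd {r m : ℕ} (c : Fin (m + 1) → PP r) (t : Fin (m + 1) × Bool) : KX r :=
  if t.2 then (c t.1).1.2 else (c t.1).1.1

theorem dd_inj {r m : ℕ} (c : Fin (m + 1) → PP r)
    (hc : Function.Injective fun i => (c i).1.1.1) : Function.Injective (dd c) := by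
  have hv : ∀ t, (dd c t).1 = (c t.1).1.1.1 := by
    rintro ⟨i, b⟩
    cases b
    · simp [dd]
    · simp [dd, (c i).2.1]
  rintro ⟨i, b⟩ ⟨i', b'⟩ h
  have h1 := congrArg Prod.fst h
  rw [hv, hv] at h1
  have h2 : i = i' := hc h1
  subst h2
  cases b <;> cases b'
  · rfl
  · exact absurd h (by simpa [dd] using (c i).2.2)
  · exact absurd h.symm (by simpa [dd] using (c i).2.2)
  · rfl

/-- Pairings which contain the prescribed pairs. -/
abbrev KK {r m : ℕ} (c : Fin (m + 1) → PP r) : Type :=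
  {κ : Equiv.Perm (KX r) // IsPair κ ∧ ∀ i, κ (c i).1.1 = (c (i + 1)).1.2}

theorem card_KK (hPMC : StmtPMC) {r m : ℕ} (hm : m + 1 ≤ 3 * r) (c : Fin (m + 1) → PP r)
    (hc : Function.Injective fun i => (c i).1.1.1) :
    Nat.card (KK c) ≤ Nat.doubleFactorial (2 * (3 * r - (m + 1)) - 1) := by
  classical
  have hinj := dd_inj c hc
  let H : Type := {x : KX r // x ∉ Set.range (dd c)}
  have hH : Fintype.card H = 2 * (3 * r - (m + 1)) := by
    have h1 : Fintype.card {x : KX r // x ∈ Set.range (dd c)} = 2 * (m + 1) := by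
      have : Fintype.card (Set.range (dd c)) = Fintype.card (Fin (m + 1) × Bool) :=
        Set.card_range_of_injective hinj
      have h2 : Fintype.card {x : KX r // x ∈ Set.range (dd c)} =
        Fintype.card (Set.range (dd c)) := Fintype.card_congr (Equiv.refl _)
      rw [h2, this, Fintype.card_prod, Fintype.card_fin, Fintype.card_bool]
      ring
    have h3 := Fintype.card_subtype_compl (fun x : KX r => x ∈ Set.range (dd c))
    have h4 : Fintype.card (KX r) = 6 * r := by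
      rw [Fintype.card_prod, Fintype.card_fin, Fintype.card_fin]; ring
    have h5 : Fintype.card H = Fintype.card {x : KX r // ¬ x ∈ Set.range (dd c)} :=
      Fintype.card_congr (Equiv.refl _)
    rw [h5, h3, h1, h4]
    omega
  rw [← hPMC H (3 * r - (m + 1)) hH]
  -- the range is stable
  have hst : ∀ κ : KK c, ∀ x, x ∈ Set.range (dd c) → κ.1 x ∈ Set.range (dd c) := by
    rintro ⟨κ, hp, hk⟩ x ⟨⟨i, b⟩, rfl⟩
    cases b
    · exact ⟨(i + 1, true), by simp [dd, hk i]⟩
    · refine ⟨(i - 1, false), ?_⟩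
      have h1 := hk (i - 1)
      rw [sub_add_cancel] at h1
      have h2 : κ (c i).1.2 = (c (i - 1)).1.1 := by
        rw [← h1]; exact (hp _).1
      simp [dd, h2]
  have hst' : ∀ κ : KK c, ∀ x, x ∉ Set.range (dd c) ↔ κ.1 x ∉ Set.range (dd c) := by
    intro κ x
    constructor
    · intro h h'
      exact h (by simpa [(κ.2.1 x).1] using hst κ _ h')
    · intro h h'
      exact h (hst κ _ h')
  refine Nat.card_le_card_of_injective
    (fun κ => ⟨κ.1.subtypePerm (fun x => (hst' κ x).symm), ?_⟩) ?_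
  · rintro ⟨x, hx⟩
    refine ⟨Subtype.ext ?_, ?_⟩
    · exact (κ.2.1 x).1
    · intro h
      exact (κ.2.1 x).2 (congrArg Subtype.val h)
  · intro κ κ' h
    have h0 : κ.1.subtypePerm (fun x => (hst' κ x).symm) =
        κ'.1.subtypePerm (fun x => (hst' κ' x).symm) := congrArg Subtype.val h
    refine Subtype.ext (Equiv.ext fun x => ?_)
    by_cases hx : x ∈ Set.range (dd c)
    · obtain ⟨⟨i, b⟩, rfl⟩ := hx
      cases b
      · have h1 := κ.2.2 i
        have h2 := κ'.2.2 i
        simp only [dd, Bool.false_eq_true, if_false]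
        rw [h1, h2]
      · have h1 := κ.2.2 (i - 1)
        have h2 := κ'.2.2 (i - 1)
        rw [sub_add_cancel] at h1 h2
        have h3 : κ.1 (c i).1.2 = (c (i - 1)).1.1 := by
          rw [← h1]; exact (κ.2.1 _).1
        have h4 : κ'.1 (c i).1.2 = (c (i - 1)).1.1 := by
          rw [← h2]; exact (κ'.2.1 _).1
        simp only [dd, if_true]
        rw [h3, h4]
    · have h1 := congrArg (fun e : Equiv.Perm H => (e ⟨x, hx⟩ : KX r)) h0
      exact h1

/-- The data of a bad dart. -/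
theorem bad_data {r L : ℕ} {κ : Equiv.Perm (KX r)} {x : KX r} (hκ : IsPair κ)
    (h : BadD L κ x) : ∃ (m : ℕ) (_ : m < L) (c : Fin (m + 1) → PP r),
      (Function.Injective fun i => (c i).1.1.1) ∧ (∀ i, κ (c i).1.1 = (c (i + 1)).1.2) ∧
      (c 0).1.1 = x := by
  obtain ⟨j, hj1, hjL, y, hy0, hy, hyj, hinj⟩ := h
  obtain ⟨m, rfl⟩ : ∃ m, j = m + 1 := ⟨j - 1, by omega⟩
  -- the partner of y 0
  have hz : κ (y m) ≠ y 0 := by
    intro h1
    have h2 : y m = κ (y 0) := by rw [← h1]; exact (hκ _).1.symm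
    rcases Nat.eq_zero_or_pos m with hm | hm
    · subst hm
      exact (hκ (y 0)).2 h2.symm
    · have h3 : (y m).1 = (y 1).1 := by
        rw [h2]; exact (hy 0 (by omega)).1
      by_cases hm1 : m = 1
      · subst hm1
        exact (hy 0 (by omega)).2 h2.symm
      · exact hinj m (by omega) 1 (by omega) hm1 h3
  have hzv : (y 0).1 = (κ (y m)).1 := by
    rw [(hy m (by omega)).1]; exact hyj.symm
  have hb : ∀ i : Fin (m + 1), (y i).1 = (if i = 0 then κ (y m) else κ (y (i - 1))).1 ∧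
      y i ≠ (if i = 0 then κ (y m) else κ (y (i - 1))) := by
    intro i
    by_cases hi : i = 0
    · subst hi
      simp only [if_true, Fin.val_zero]
      exact ⟨hzv, hz.symm⟩
    · rw [if_neg hi]
      have hi0 : (i : ℕ) ≠ 0 := fun h => hi (Fin.ext h)
      have h1 := hy ((i : ℕ) - 1) (by omega)
      rw [Nat.sub_add_cancel (by omega)] at h1
      exact ⟨h1.1.symm, h1.2.symm⟩
  refine ⟨m, by omega, fun i => ⟨(y i, if i = 0 then κ (y m) else κ (y (i - 1))), hb i⟩,
    ?_, ?_, ?_⟩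
  · intro i i' hii
    by_contra hne
    exact hinj i i.2 i' i'.2 (fun h => hne (Fin.ext h)) hii
  · intro i
    change κ (y i) = (if i + 1 = 0 then κ (y m) else κ (y ((i + 1 : Fin (m + 1)) - 1)))
    by_cases hi : (i : ℕ) = m
    · have h1 : i = Fin.last m := Fin.ext hi
      have h2 : i + 1 = 0 := by rw [h1]; exact Fin.last_add_one m
      rw [if_pos h2, hi]
    · have h1 : ((i + 1 : Fin (m + 1)) : ℕ) = i + 1 := by
        rw [Fin.val_add_one_of_lt]
        exact Fin.lt_def.2 (by simp only [Fin.val_last]; omega)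
      have h2 : i + 1 ≠ 0 := by
        intro h
        rw [h] at h1
        simp at h1
      rw [if_neg h2, h1]
      simp
  · simpa using hy0

theorem goalKBD (hPMC : StmtPMC) : StmtKBD := by
  classical
  intro L r hL hLr
  let A : Fin L → Type := fun m =>
    Σ c : {c : Fin ((m : ℕ) + 1) → PP r // Function.Injective fun i => (c i).1.1.1}, KK c.1
  have hdata : ∀ q : {q : Equiv.Perm (KX r) × KX r // IsPair q.1 ∧ BadD L q.1 q.2},
      ∃ s : Σ m : Fin L, A m, s.2.2.1 = q.1.1 ∧ ((s.2.1.1 0).1.1 : KX r) = q.1.2 := by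
    rintro ⟨⟨κ, x⟩, hp, hb⟩
    obtain ⟨m, hm, c, h1, h2, h3⟩ := bad_data hp hb
    exact ⟨⟨⟨m, hm⟩, ⟨⟨c, h1⟩, ⟨κ, hp, h2⟩⟩⟩, rfl, h3⟩
  choose F hF1 hF2 using hdata
  have hFinj : Function.Injective F := by
    intro q q' h
    refine Subtype.ext (Prod.ext ?_ ?_)
    · rw [← hF1 q, ← hF1 q', h]
    · rw [← hF2 q, ← hF2 q', h]
  refine (Nat.card_le_card_of_injective F hFinj).trans ?_
  rw [Nat.card_sigma]
  have hone : ∀ m : Fin L, Nat.card (A m) ≤
      3 ^ ((m : ℕ) + 1) * Nat.doubleFactorial (6 * r - 1) := by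
    intro m
    have h1 : Nat.card (A m) ≤
        (12 * r) ^ ((m : ℕ) + 1) * Nat.doubleFactorial (2 * (3 * r - ((m : ℕ) + 1)) - 1) := by
      change Nat.card (Σ c : {c : Fin ((m : ℕ) + 1) → PP r //
        Function.Injective fun i => (c i).1.1.1}, KK c.1) ≤ _
      rw [Nat.card_sigma]
      refine (Finset.sum_le_card_nsmul _ _ _
        (fun c _ => card_KK hPMC (by omega) c.1 c.2)).trans ?_
      rw [smul_eq_mul]
      refine Nat.mul_le_mul_right _ ?_
      rw [Finset.card_univ, ← Nat.card_eq_fintype_card]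
      refine (Nat.card_le_card_of_injective _ Subtype.val_injective).trans ?_
      rw [Nat.card_fun, Nat.card_eq_fintype_card (α := Fin ((m : ℕ) + 1)), Fintype.card_fin]
      exact Nat.pow_le_pow_left (card_PP r) _
    refine h1.trans ?_
    have h2 := num r ((m : ℕ) + 1) (by omega)
    calc (12 * r) ^ ((m : ℕ) + 1) * Nat.doubleFactorial (2 * (3 * r - ((m : ℕ) + 1)) - 1)
        = 3 ^ ((m : ℕ) + 1) * ((4 * r) ^ ((m : ℕ) + 1) *
            Nat.doubleFactorial (2 * (3 * r - ((m : ℕ) + 1)) - 1)) := by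
          rw [show 12 * r = 3 * (4 * r) by ring, mul_pow]; ring
      _ ≤ _ := Nat.mul_le_mul_left _ h2
  refine (Finset.sum_le_sum fun m _ => hone m).trans ?_
  rw [← Finset.sum_mul]
  refine Nat.mul_le_mul_right _ ?_
  have h3 : ∀ n : ℕ, ∑ m : Fin n, 3 ^ ((m : ℕ) + 1) ≤ 3 ^ (n + 1) := by
    intro n
    induction n with
    | zero => simp
    | succ n ih =>
      rw [Fin.sum_univ_castSucc]
      simp only [Fin.val_castSucc, Fin.val_last]
      have : 3 ^ (n + 1 + 1) = 3 * 3 ^ (n + 1) := by ring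
      omega
  exact h3 L

end Pool.Agent.Helper22.AF
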