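import Pool.Agent.Helper26.AF.Goals3

/-!
Packet AF-POI.
-/

namespace Pool.Agent.Helper22.AF

open Pool.Agent.Helper26.AF

theorem log_le_half {u : ℝ} (hu : 1 ≤ u) : Real.log u ≤ (u - u⁻¹) / 2 := by
  have h0 : 0 < u := by linarith
  have h1 := Real.self_le_sinh_iff.2 (Real.log_nonneg hu)
  rw [Real.sinh_eq, Real.exp_neg, Real.exp_log h0] at h1
  exact h1

/-- The bound without the square root. -/
theorem main_exp {m k : ℝ} (hm : 0 < m) (hk : m ≤ k) :
    m * Real.log (k / m) + m - k ≤ -(k - m) ^ 2 / (2 * k) := by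
  have hk0 : 0 < k := by linarith
  have hu : 1 ≤ k / m := by rw [le_div_iff₀ hm]; linarith
  have h1 := mul_le_mul_of_nonneg_left (log_le_half hu) hm.le
  have h2 : m * ((k / m - (k / m)⁻¹) / 2) + m - k = -(k - m) ^ 2 / (2 * k) := by
    field_simp
    ring
  linarith

theorem bound_pos {m k : ℕ} (hm : 1 ≤ m) (hk : m ≤ k) :
    (k : ℝ) ^ m * Real.exp (-(k : ℝ)) / (m.factorial : ℝ) ≤
      Real.exp (-((k : ℝ) - m) ^ 2 / (2 * k)) / Real.sqrt (2 * Real.pi * m) := by
  have hm0 : (0 : ℝ) < m := by exact_mod_cast hm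
  have hk0 : (0 : ℝ) < k := by exact_mod_cast (by omega : 0 < k)
  have hkm : (m : ℝ) ≤ k := by exact_mod_cast hk
  have hst := Stirling.le_factorial_stirling m
  have hsq : 0 < Real.sqrt (2 * Real.pi * m) := Real.sqrt_pos.2 (by positivity)
  have hf : (0 : ℝ) < m.factorial := by exact_mod_cast m.factorial_pos
  have h1 := main_exp hm0 hkm
  -- k^m e^{-k} = (m/e)^m * exp(m log (k/m) + m - k)
  have h2 : (k : ℝ) ^ m * Real.exp (-(k : ℝ)) =
      (m / Real.exp 1) ^ m * Real.exp (m * Real.log (k / m) + m - k) := by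
    have ha : Real.exp (m * Real.log (k / m)) = (k / m) ^ m := by
      rw [mul_comm, Real.exp_mul, Real.exp_log (by positivity), Real.rpow_natCast]
    have hb : Real.exp (m : ℝ) = Real.exp 1 ^ m := by
      rw [← Real.exp_nat_mul, mul_one]
    rw [Real.exp_sub, Real.exp_add, ha, hb, Real.exp_neg, div_pow, div_pow]
    have hm' : (m : ℝ) ^ m ≠ 0 := by positivity
    field_simp
  rw [h2, div_le_div_iff₀ hf hsq]
  have h3 := Real.exp_le_exp.2 h1
  have h4 : 0 < ((m : ℝ) / Real.exp 1) ^ m := by positivity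
  calc (m / Real.exp 1) ^ m * Real.exp (m * Real.log (k / m) + m - k) *
        Real.sqrt (2 * Real.pi * m)
      = Real.exp (m * Real.log (k / m) + m - k) *
          (Real.sqrt (2 * Real.pi * m) * (m / Real.exp 1) ^ m) := by ring
    _ ≤ Real.exp (-((k : ℝ) - m) ^ 2 / (2 * k)) * (m.factorial : ℝ) := by
        apply mul_le_mul h3 hst (by positivity) (by positivity)

theorem goalPOI : StmtPOI := by
  intro δ hδ hδ1
  refine ⟨8 / δ, by positivity, ?_⟩
  intro s k hs hsk
  have hk0 : (0 : ℝ) < k := by exact_mod_cast (by omega : 0 < k)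
  have hk1 : (1 : ℝ) ≤ k := by exact_mod_cast (by omega : 1 ≤ k)
  have hsk' : (s : ℝ) ≤ k := by exact_mod_cast hsk
  have hs0 : (0 : ℝ) < s := by exact_mod_cast hs
  have hsqk : 0 < Real.sqrt k := Real.sqrt_pos.2 hk0
  have hC : 1 ≤ 8 / δ := by rw [le_div_iff₀ hδ]; linarith
  have hcast : ((k - s : ℕ) : ℝ) = (k : ℝ) - s := by rw [Nat.cast_sub hsk]
  -- exponentials
  have hE : Real.exp (-(s : ℝ) ^ 2 / (2 * k)) ≤ Real.exp (-(1 - δ) * (s : ℝ) ^ 2 / (2 * k)) := by
    apply Real.exp_le_exp.2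
    apply div_le_div_of_nonneg_right _ (by positivity)
    nlinarith [sq_nonneg (s : ℝ), mul_pos hδ (pow_pos hs0 2)]
  -- general bound
  have hgen : (k : ℝ) ^ (k - s) * Real.exp (-(k : ℝ)) / ((k - s).factorial : ℝ) ≤
      Real.exp (-(s : ℝ) ^ 2 / (2 * k)) := by
    rcases Nat.eq_zero_or_pos (k - s) with h | h
    · have hks : k = s := by omega
      subst hks
      simp only [Nat.sub_self, pow_zero, one_mul, Nat.factorial_zero, Nat.cast_one, div_one]
      apply Real.exp_le_exp.2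
      rw [le_div_iff₀ (by positivity)]
      nlinarith [sq_nonneg (k : ℝ)]
    · have h1 := bound_pos h (Nat.sub_le k s)
      rw [hcast, sub_sub_cancel] at h1
      refine h1.trans ?_
      apply div_le_self (Real.exp_pos _).le
      rw [Real.one_le_sqrt]
      have h2 : (1 : ℝ) ≤ (k : ℝ) - s := by
        rw [← hcast]; exact_mod_cast h
      nlinarith [Real.pi_gt_three]
  by_cases hcase : 2 * s ≤ k
  · -- m ≥ k / 2
    have hm : 1 ≤ k - s := by omega
    have h1 := bound_pos hm (Nat.sub_le k s)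
    rw [hcast, sub_sub_cancel] at h1
    refine h1.trans ?_
    have h2 : (2 : ℝ) * s ≤ k := by exact_mod_cast hcase
    have h3 : Real.sqrt k ≤ Real.sqrt (2 * Real.pi * ((k : ℝ) - s)) := by
      apply Real.sqrt_le_sqrt
      nlinarith [Real.pi_gt_three]
    calc Real.exp (-(s : ℝ) ^ 2 / (2 * k)) / Real.sqrt (2 * Real.pi * ((k : ℝ) - s))
        ≤ Real.exp (-(s : ℝ) ^ 2 / (2 * k)) / Real.sqrt k :=
          div_le_div_of_nonneg_left (Real.exp_pos _).le hsqk h3
      _ ≤ Real.exp (-(1 - δ) * (s : ℝ) ^ 2 / (2 * k)) / Real.sqrt k :=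
          div_le_div_of_nonneg_right hE hsqk.le
      _ ≤ 8 / δ * Real.exp (-(1 - δ) * (s : ℝ) ^ 2 / (2 * k)) / Real.sqrt k := by
          apply div_le_div_of_nonneg_right _ hsqk.le
          nlinarith [Real.exp_pos (-(1 - δ) * (s : ℝ) ^ 2 / (2 * k))]
  · refine hgen.trans ?_
    have h2 : (k : ℝ) ≤ 2 * s := by
      have : k ≤ 2 * s := by omega
      exact_mod_cast this
    have h3 : Real.exp (-(s : ℝ) ^ 2 / (2 * k)) =
        Real.exp (-(1 - δ) * (s : ℝ) ^ 2 / (2 * k)) * Real.exp (-(δ * (s : ℝ) ^ 2 / (2 * k))) := by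
      rw [← Real.exp_add]
      congr 1
      ring
    have h4 : δ * k / 8 ≤ δ * (s : ℝ) ^ 2 / (2 * k) := by
      rw [div_le_div_iff₀ (by norm_num) (by positivity)]
      have : (k : ℝ) ^ 2 ≤ 4 * (s : ℝ) ^ 2 := by nlinarith
      nlinarith
    have h5 : Real.exp (-(δ * (s : ℝ) ^ 2 / (2 * k))) ≤ 8 / δ / Real.sqrt k := by
      have h6 : Real.exp (-(δ * (s : ℝ) ^ 2 / (2 * k))) ≤ Real.exp (-(δ * k / 8)) :=
        Real.exp_le_exp.2 (by linarith)
      refine h6.trans ?_
      rw [Real.exp_neg]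
      have h7 : δ * k / 8 ≤ Real.exp (δ * k / 8) := by
        have := Real.add_one_le_exp (δ * k / 8)
        linarith
      have h8 : (Real.exp (δ * k / 8))⁻¹ ≤ (δ * k / 8)⁻¹ :=
        inv_anti₀ (by positivity) h7
      refine h8.trans ?_
      have h9 : Real.sqrt k ≤ k := by
        rw [Real.sqrt_le_left hk0.le]
        nlinarith
      rw [div_div, inv_eq_one_div, div_le_div_iff₀ (by positivity) (by positivity)]
      nlinarith [mul_le_mul_of_nonneg_left h9 hδ.le]
    rw [h3]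
    refine le_trans (mul_le_mul_of_nonneg_left h5 (Real.exp_pos _).le) (le_of_eq ?_)
    ring

end Pool.Agent.Helper22.AF
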